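import Pool.Agent.Work.MP_11a08a_al.Gp.Final
import Pool.Agent.Work.MP_11a08a_al.Sol.Series

set_option autoImplicit false

namespace Pool.Agent.Results.MP_11a08a_al.CentralAbove

/-- The linear map `∑ l, α l • ρ (h l)`. -/
noncomputable def comb {F G : Type} [Field F] [Group G] {n q : ℕ}
    (ρ : Representation F G (Fin n → F)) (h : Fin q → G) (α : Fin q → F) :
    (Fin n → F) →ₗ[F] (Fin n → F) := ∑ l, α l • ρ (h l)

/-- The rank of a linear map. -/
noncomputable def rk {F : Type} [Field F] {n : ℕ} (f : (Fin n → F) →ₗ[F] (Fin n → F)) : ℕ :=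
  Module.finrank F (LinearMap.range f)

/-- `S` has a series `1 = T 0 ≤ T 1 ≤ ... ≤ T k = S`, each term normal in the next, each of whose
factors is abelian or has order at most `d`. -/
def SmallFactors {G : Type} [Group G] (d : ℕ) (S : Subgroup G) : Prop :=
  ∃ (k : ℕ) (T : ℕ → Subgroup G), T 0 = ⊥ ∧ T k = S ∧ ∀ i < k, T i ≤ T (i + 1) ∧
    (∀ x ∈ T (i + 1), ∀ y ∈ T i, x * y * x⁻¹ ∈ T i) ∧
    ((∀ x ∈ T (i + 1), ∀ y ∈ T (i + 1), x * y * x⁻¹ * y⁻¹ ∈ T i) ∨
      (T i).relIndex (T (i + 1)) ≤ d)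

/-- The conjectured rank bound when the `h l` lie in one coset of the preimage of the `j`-th term of
the upper central series of `G / S`, where `S` is a normal subgroup whose nonabelian composition
factors have bounded order; in characteristic `p > 0` the parts prime to `p` of the orders of the
elements of `S` are required to divide a fixed number `e`. -/
theorem result :
    ∀ ε : ℝ, 0 < ε → ∀ q d e j : ℕ, 0 < e → ∃ N : ℕ, ∀ n > N,
      ∀ (F : Type) [Field F] (G : Type) [Group G] [Finite G] (S : Subgroup G) [S.Normal],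
        SmallFactors d S →
        (ringChar F ≠ 0 → ∀ s ∈ S, ∃ k : ℕ, s ^ (e * ringChar F ^ k) = 1) →
        ∀ ρ : Representation F G (Fin n → F), ρ.IsIrreducible → (Nat.card G : ℝ) ^ ε ≤ n →
        ∀ (h : Fin q → G) (α : Fin q → F),
          (∀ l l', QuotientGroup.mk' S ((h l)⁻¹ * h l') ∈ Subgroup.upperCentralSeries (G ⧸ S) j) →
          comb ρ h α ≠ 0 → (n : ℝ) ^ (1 - ε) ≤ rk (comb ρ h α) := by
  intro ε hε q d e j he
  obtain ⟨N, hN⟩ := Pool.Agent.Work.MP_11a08a_al.Gp.final ε hε q d e j he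
  refine ⟨N, fun n hn F _ G _ _ S hS hd hc => hN n hn F G S ?_ ?_⟩
  · obtain ⟨k, T, h0, rfl, h⟩ := hd
    exact Pool.Agent.Work.MP_11a08a_al.Sol.series_secBd T h0 k fun i hi => (h i hi).2
  · by_cases h : ringChar F = 0
    · exact Or.inl ((CharP.ringChar_zero_iff_CharZero F).1 h)
    · exact Or.inr (hc h)

end Pool.Agent.Results.MP_11a08a_al.CentralAbove
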