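import Pool.Agent.Work.MP_11a08a_al.Mb.Final

set_option autoImplicit false

open scoped commutatorElement

namespace Pool.Agent.Results.MP_11a08a_al.FreeSeries

/-- The linear map `∑ l, α l • ρ (h l)`. -/
noncomputable def comb {F G : Type} [Field F] [Group G] {n q : ℕ}
    (ρ : Representation F G (Fin n → F)) (h : Fin q → G) (α : Fin q → F) :
    (Fin n → F) →ₗ[F] (Fin n → F) := ∑ l, α l • ρ (h l)

/-- The rank of a linear map. -/
noncomputable def rk {F : Type} [Field F] {n : ℕ} (f : (Fin n → F) →ₗ[F] (Fin n → F)) : ℕ :=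
  Module.finrank F (LinearMap.range f)

/-- The conjectured rank bound, over every field, for the finite groups `G` with a series
`1 = A 0 ≤ ... ≤ A e` of normal subgroups, `A e` abelian, such that every element of `G` acts on
each factor trivially or without fixed points, every element of `G` is central modulo `A e` or acts
without fixed points on `A e ≠ 1`, and `G / C(A e)` has a metabelian subgroup of index at most
`d`. -/
theorem result :
    ∀ ε : ℝ, 0 < ε → ∀ q d e : ℕ, ∃ N : ℕ, ∀ n > N,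
      ∀ (F : Type) [Field F] (G : Type) [Group G] [Finite G] (A : ℕ → Subgroup G)
        (K : Subgroup G), A 0 = ⊥ → (∀ i ≤ e, (A i).Normal) → (∀ i < e, A i ≤ A (i + 1)) →
        (∀ a ∈ A e, ∀ b ∈ A e, a * b = b * a) →
        (∀ i < e, ∀ g : G, (∀ a ∈ A (i + 1), ⁅g, a⁆ ∈ A i) ∨
          ∀ a ∈ A (i + 1), ⁅g, a⁆ ∈ A i → a ∈ A i) →
        (∀ g : G, (∀ x : G, ⁅g, x⁆ ∈ A e) ∨ (A e ≠ ⊥ ∧ ∀ a ∈ A e, g * a = a * g → a = 1)) →
        K.index ≤ d → ⁅⁅K, K⁆, ⁅K, K⁆⁆ ≤ Subgroup.centralizer (A e : Set G) →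
        ∀ ρ : Representation F G (Fin n → F), ρ.IsIrreducible → (Nat.card G : ℝ) ^ ε ≤ n →
        ∀ (h : Fin q → G) (α : Fin q → F),
          comb ρ h α ≠ 0 → (n : ℝ) ^ (1 - ε) ≤ rk (comb ρ h α) := by
  intro ε hε q d e
  obtain ⟨N, hN⟩ := Pool.Agent.Work.MP_11a08a_al.Mb.final ε hε q d e
  exact ⟨N, fun n hn F _ G _ _ A K h1 h2 h3 h4 h5 h6 h7 h8 =>
    hN n hn F G A K ⟨h1, h2, h3, h5⟩ h4 h6 h7 (Subgroup.commutator_le.1 h8)⟩

end Pool.Agent.Results.MP_11a08a_al.FreeSeries
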