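import Pool.Agent.Work.MP_11a08a_al.Lin.Main2

set_option autoImplicit false

open scoped commutatorElement

namespace Pool.Agent.Results.MP_11a08a_al.KnownGroups

/-- The linear map `∑ l, α l • ρ (h l)`. -/
noncomputable def comb {F G : Type} [Field F] [Group G] {n q : ℕ}
    (ρ : Representation F G (Fin n → F)) (h : Fin q → G) (α : Fin q → F) :
    (Fin n → F) →ₗ[F] (Fin n → F) := ∑ l, α l • ρ (h l)

/-- The rank of a linear map. -/
noncomputable def rk {F : Type} [Field F] {n : ℕ} (f : (Fin n → F) →ₗ[F] (Fin n → F)) : ℕ :=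
  Module.finrank F (LinearMap.range f)

section

variable {K V : Type} [Field K] [AddCommGroup V] [Module K V] (O : Subgroup (V ≃ₗ[K] V))

/-- `b` is nondegenerate and `O` is its isometry group. -/
def Isom (b : V → V → K) : Prop :=
  (∀ v, (∀ w, b v w = 0) → v = 0) ∧ ∀ h, h ∈ O ↔ ∀ v w, b (h v) (h w) = b v w

/-- `O` is the isometry group of a nondegenerate alternating bilinear form. -/
def Sp : Prop := ∃ B : V →ₗ[K] V →ₗ[K] K, (∀ v, B v v = 0) ∧ Isom O fun v w => B v w

/-- `O` is the isometry group of a nondegenerate hermitian form. -/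
def GU : Prop := ∃ (σ : K →+* K) (B : V →ₗ[K] V →ₛₗ[σ] K) (b : V → V → K), (∀ a, σ (σ a) = a) ∧
  (∃ a, σ a ≠ a) ∧ (∀ v w, b v w = B v w) ∧ (∀ v w, b w v = σ (b v w)) ∧ Isom O b

/-- `O` is the isometry group of a quadratic form with nondegenerate polar form. -/
def GO : Prop := ∃ (Φ : QuadraticForm K V) (f : V → K), (∀ v, f v = Φ v) ∧
  (∀ v, (∀ w, f (v + w) = f v + f w) → v = 0) ∧ ∀ h, h ∈ O ↔ ∀ v, f (h v) = f v

end

/-- `Q` is the quotient of the derived group of `O` by a central subgroup. -/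
def Der {G : Type} [Group G] (O : Subgroup G) (Q : Type) [Group Q] : Prop :=
  ∃ (D : Subgroup G) (π : D →* Q), D = ⁅O, O⁆ ∧ Function.Surjective π ∧ π.ker ≤ Subgroup.center D

/-- `Q` has a faithful linear representation of degree `m` over some field, or is an alternating
group, or is a classical group over a finite field. -/
def Known (m : ℕ) (Q : Type) [Group Q] : Prop :=
  (∃ (K : Type) (_ : Field K) (f : Q →* GL (Fin m) K), Function.Injective f) ∨
  (∃ n : ℕ, Nonempty (alternatingGroup (Fin n) ≃* Q)) ∨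
  ∃ (K V : Type) (_ : Field K) (_ : Finite K) (_ : AddCommGroup V) (_ : Module K V)
    (_ : FiniteDimensional K V) (O : Subgroup (V ≃ₗ[K] V)),
    (O = ⊤ ∨ Sp O ∨ GU O ∨ GO O) ∧ Der O Q

/-- Every nonabelian simple quotient of a subgroup of `G` is known. -/
def KGroup (m : ℕ) (G : Type) [Group G] : Prop :=
  ∀ (B : Subgroup G) (Q : Type) [Group Q] (π : B →* Q), Function.Surjective π →
    IsSimpleGroup Q → (∃ x y : Q, x * y ≠ y * x) → Known m Q

/-- The conjectured rank bound in characteristic zero for all groups whose simple sections are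
known simple groups. -/
theorem result :
    ∀ ε : ℝ, 0 < ε → ∀ q m : ℕ, ∃ N : ℕ, ∀ n > N,
      ∀ (F : Type) [Field F] [CharZero F] (G : Type) [Group G] [Finite G], KGroup m G →
        ∀ ρ : Representation F G (Fin n → F), ρ.IsIrreducible → (Nat.card G : ℝ) ^ ε ≤ n →
        ∀ (h : Fin q → G) (α : Fin q → F),
          comb ρ h α ≠ 0 → (n : ℝ) ^ (1 - ε) ≤ rk (comb ρ h α) := by
  intro ε hε q m
  obtain ⟨m', hm⟩ := Pool.Agent.Work.MP_11a08a_al.Lin.knS m
  obtain ⟨N, hN⟩ := Pool.Agent.Work.MP_11a08a_al.Lin.mainL ε hε q m'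
  refine ⟨N, fun n hn F _ _ G _ _ hG => hN n hn F G fun B _ _ Q _ π hπ _ hs hc =>
    hm Q hs hc ((hG B Q π hπ hs hc).imp id (Or.imp id ?_)) _⟩
  rintro ⟨K, V, _, _, _, _, _, O, hO, _, π, rfl, h⟩
  refine ⟨K, V, _, ‹_›, _, _, ‹_›, O, π, hO.imp id (Or.imp id (Or.imp ?_ ?_)), h⟩
  · rintro ⟨σ, B, b, h1, h2, h3, h4, h5⟩
    obtain rfl : b = fun v w => B v w := funext fun v => funext (h3 v)
    exact ⟨σ, B, h1, h2, h4, h5⟩
  · rintro ⟨Φ, f, h1, h2⟩
    obtain rfl : f = Φ := funext h1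
    exact ⟨Φ, h2⟩

end Pool.Agent.Results.MP_11a08a_al.KnownGroups
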